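import Mathlib
import Pool.Agent.Q158.EqD.Sharp
import Pool.Agent.Q158.EqD.TransAff

/-!
# The numbers `π + e`, `π - e` and `π + a e` at every finite scale

Let `D_N(y)` be the discrepancy of the numbers `y, 2 y, …, N y` modulo one; `y` is rational if and
only if `D_N(y)` does not tend to zero. Since `e` is transcendental, at most one of
the numbers `π + a e`, `a ∈ ℚ`, is algebraic. We prove forms of this which hold at EVERY finite
scale `N`.

1. `D_L(t + e) D_M(t - e) ≤ 170000 √((1 + log N) / N)` for all real `t` and all `L, M ≥ N ≥ 1`.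
2. So for every `N` one of `x = π + e, π - e` satisfies `D_M(x) ≤ 413 ((1 + log N) / N) ^ (1/4)` for
   ALL `M ≥ N`.
3. 1 is sharp up to a logarithm for every `N`, for suitable `t`.
4. `D_N(r) ≥ 1 / (3 q)` for a rational number `r` with the denominator `q`.
5. For all `d` and `T` there are `κ, K > 0` such that for all real `t` with `|t| ≤ T` and every `N ≥ 1`
   there is at most one rational number `a` with numerator and denominator at most `N ^ κ`
   for which `x = t + a e` does not look transcendental at the scale `N`, where `x` looks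
   transcendental at the scale `N` if `D_M(P(x)) ≤ K N ^ (-κ)` for ALL `M ≥ N` and all nonconstant
   `P ∈ ℤ[X]` of degree at most `d` with coefficients at most `N ^ κ`.
6. So at every scale `N` one of the numbers `π + e`, `π - e` looks transcendental.
7. A number `y` is transcendental if and only if `D_N(P(y)) → 0` for all nonconstant `P ∈ ℤ[X]`.

Proof. If `D_M(y) > δ` then `y` has a rational approximation with a denominator `≤ 12 / δ` and the
error at most `16 / (δ M)`. In 5 this gives a polynomial in `ℤ[X, Y]` with a very small value at `(e, t)`, and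
so an irreducible factor `f` with a very small value. By the transcendence measure of `e` such a
factor contains `Y`, and two factors which are not proportional have a resultant, a polynomial in
`X`, which is too small at `e`. Let `y₀` be a root of `f(X, Y)` in an algebraic closure of `ℚ(X)`; then
`y₀ + a X` is an algebraic number for all the exceptional `a`, and two different exceptional `a`
would make `X` algebraic.
-/

set_option autoImplicit false

open Real Polynomial

namespace Pool.Agent.Results.MP_363d4d_nt.AtEveryScale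

noncomputable section

/-- The number of the `n`, `1 ≤ n ≤ N`, for which the fractional part of `n x` lies in `[a, b)`. -/
def count (x : ℝ) (N : ℕ) (a b : ℝ) : ℕ :=
  ((Finset.Icc 1 N).filter fun n : ℕ => a ≤ Int.fract (n * x) ∧ Int.fract (n * x) < b).card

/-- The discrepancy of `x, 2 x, …, N x` modulo one: the supremum over the intervals
`[a, b) ⊆ [0, 1)` of the difference between the proportion of the `n ≤ N` with `n x` in `[a, b)`
modulo one and the length of the interval. -/
def discrepancy (x : ℝ) (N : ℕ) : ℝ :=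
  sSup {d | ∃ a b : ℝ, 0 ≤ a ∧ a ≤ b ∧ b ≤ 1 ∧ d = |(count x N a b : ℝ) / N - (b - a)|}

theorem resultA :
    -- for all real `t`, in particular for `π`
    (∀ t : ℝ, ∀ N L M : ℕ, 0 < N → N ≤ L → N ≤ M →
      discrepancy (t + exp 1) L * discrepancy (t - exp 1) M ≤ 170000 * √((1 + log N) / N)) ∧
    -- so for every `N` one of the two numbers has a small discrepancy at all scales from `N` on
    (∀ N : ℕ, 0 < N →
      (∀ M : ℕ, N ≤ M → discrepancy (π + exp 1) M ≤ 413 * √(√((1 + log N) / N))) ∨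
      (∀ M : ℕ, N ≤ M → discrepancy (π - exp 1) M ≤ 413 * √(√((1 + log N) / N)))) ∧
    -- the first inequality is sharp up to a logarithm
    (∀ N : ℕ, 0 < N → ∃ t : ℝ,
      1 / (4000 * √(N * (1 + log N))) ≤
        discrepancy (t + exp 1) N * discrepancy (t - exp 1) N) ∧
    -- the discrepancies of the multiples of a rational number do not tend to zero
    (∀ r : ℚ, ∀ N : ℕ, 1 / (3 * r.den) ≤ discrepancy r N) := by
  have h1 : ∀ t : ℝ, ∀ N L M : ℕ, 0 < N → N ≤ L → N ≤ M →
      discrepancy (t + exp 1) L * discrepancy (t - exp 1) M ≤ 170000 * √((1 + log N) / N) := by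
    intro t N L M hN hL hM
    have hNR : (1 : ℝ) ≤ N := by exact_mod_cast hN
    have hlog : 0 ≤ log (N : ℝ) := log_nonneg hNR
    have h := Pool.Agent.Q158.EqD.lin (t + exp 1) (t - exp 1) 1 (-1) 2 0 (by norm_num)
      (by push_cast; ring) N L M hN hL hM
    refine h.trans ?_
    have e : |((2 : ℤ) : ℝ)| * (|((1 : ℤ) : ℝ)| + |((-1 : ℤ) : ℝ)|) *
        (1 + log (|((2 : ℤ) : ℝ)| * N)) / N ≤ 8 * ((1 + log N) / N) := by
      have : |((2 : ℤ) : ℝ)| * (|((1 : ℤ) : ℝ)| + |((-1 : ℤ) : ℝ)|) = 4 := by norm_num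
      rw [this]
      have h2 : |((2 : ℤ) : ℝ)| = 2 := by norm_num
      rw [h2, log_mul (by norm_num) (by linarith), ← mul_div_assoc]
      apply div_le_div_of_nonneg_right _ (by linarith)
      have := Real.log_two_lt_d9
      linarith
    calc 60000 * √(|((2 : ℤ) : ℝ)| * (|((1 : ℤ) : ℝ)| + |((-1 : ℤ) : ℝ)|) *
        (1 + log (|((2 : ℤ) : ℝ)| * N)) / N) ≤ 60000 * √(8 * ((1 + log N) / N)) := by
          gcongr
      _ = 60000 * (√8 * √((1 + log N) / N)) := by
          rw [Real.sqrt_mul (by norm_num)]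
      _ ≤ 60000 * (2.83 * √((1 + log N) / N)) := by
          have : √8 ≤ 2.83 := by
            rw [Real.sqrt_le_left (by norm_num)]; norm_num
          gcongr
      _ ≤ _ := by
          have := Real.sqrt_nonneg ((1 + log (N : ℝ)) / N)
          nlinarith
  refine ⟨h1, ?_, Pool.Agent.Q158.EqD.sharp, Pool.Agent.Q158.EqD.disc_rat⟩
  intro N hN
  by_contra hcon
  push Not at hcon
  obtain ⟨⟨L, hL, h2⟩, ⟨M, hM, h3⟩⟩ := hcon
  have h4 := h1 π N L M hN hL hM
  set Z := √((1 + log (N : ℝ)) / N) with hZ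
  have hZ0 : 0 ≤ Z := Real.sqrt_nonneg _
  have h5 : √Z * √Z = Z := Real.mul_self_sqrt hZ0
  have h6 : 0 ≤ √Z := Real.sqrt_nonneg _
  have h7 : (413 * √Z) * (413 * √Z) < discrepancy (π + exp 1) L * discrepancy (π - exp 1) M := by
    apply mul_lt_mul'' h2 h3 (by positivity) (by positivity)
  have h8 : (413 * √Z) * (413 * √Z) = 170569 * Z := by
    linear_combination 170569 * h5
  rw [h8] at h7
  linarith

/-- `y` looks transcendental at the scale `N`: the discrepancies of `P(y)` are at most `K N ^ (-κ)`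
at all scales `M ≥ N` for all nonconstant integer polynomials of degree at most `d` with
coefficients at most `N ^ κ`. -/
def LooksTranscendental (d : ℕ) (κ K : ℝ) (N : ℕ) (y : ℝ) : Prop :=
  ∀ P : ℤ[X], 0 < P.natDegree → P.natDegree ≤ d → (∀ i, |(P.coeff i : ℝ)| ≤ (N : ℝ) ^ κ) →
    ∀ M : ℕ, N ≤ M → discrepancy (aeval y P) M ≤ K * (N : ℝ) ^ (-κ)

/-- At every scale there is at most one rational number `a` with numerator and denominator at most
`N ^ κ` for which `t + a e` does not look transcendental. -/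
def OneSlope (d : ℕ) (κ K t : ℝ) : Prop :=
  ∀ N : ℕ, 0 < N → ∃ a₀ : ℚ, ∀ a : ℚ, |(a.num : ℝ)| ≤ (N : ℝ) ^ κ → (a.den : ℝ) ≤ (N : ℝ) ^ κ →
    a ≠ a₀ → LooksTranscendental d κ K N (t + a * exp 1)

theorem resultB :
    (∀ (d : ℕ) (T : ℝ), ∃ κ K : ℝ, 0 < κ ∧ 0 < K ∧ ∀ t : ℝ, |t| ≤ T → OneSlope d κ K t) ∧
    -- the numbers of the problem
    (∀ d : ℕ, ∃ κ K : ℝ, 0 < κ ∧ 0 < K ∧ ∀ N : ℕ, 0 < N →
      LooksTranscendental d κ K N (π + exp 1) ∨ LooksTranscendental d κ K N (π - exp 1)) ∧
    -- a number is transcendental exactly if the discrepancies of all values tend to zero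
    (∀ y : ℝ, Transcendental ℚ y ↔ ∀ P : ℤ[X], 0 < P.natDegree →
      Filter.Tendsto (fun N : ℕ => discrepancy (aeval y P) N) Filter.atTop (nhds 0)) := by
  have h1 : ∀ (d : ℕ) (T : ℝ), ∃ κ K : ℝ, 0 < κ ∧ 0 < K ∧ ∀ t : ℝ, |t| ≤ T → OneSlope d κ K t := by
    intro d T
    obtain ⟨κ, K, h1, h2, h3⟩ := Pool.Agent.Q158.EqD.aff (exp 1) Pool.Agent.Q158.EqD.measR_e T d
    refine ⟨κ, K, h1, h2, fun t ht N hN => ?_⟩
    obtain ⟨a₀, h4⟩ := h3 t ht N hN
    exact ⟨a₀, fun a ha1 ha2 hne P hP0 hPd hPc M hM => h4 a ha1 ha2 hne P hP0 hPd hPc M hM⟩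
  refine ⟨h1, ?_, Pool.Agent.Q158.EqD.trans_iff⟩
  intro d
  obtain ⟨κ, K, h2, h3, h4⟩ := h1 d π
  refine ⟨κ, K, h2, h3, fun N hN => ?_⟩
  obtain ⟨a₀, h5⟩ := h4 π (abs_of_pos pi_pos).le N hN
  have hN1 : (1 : ℝ) ≤ (N : ℝ) ^ κ := Real.one_le_rpow (by exact_mod_cast hN) h2.le
  by_cases ha : a₀ = 1
  · right
    have := h5 (-1) (by simpa using hN1) (by simpa using hN1) (by rw [ha]; norm_num)
    have e : π + ((-1 : ℚ) : ℝ) * exp 1 = π - exp 1 := by push_cast; ring
    rwa [e] at this
  · left
    have := h5 1 (by simpa using hN1) (by simpa using hN1) (fun h => ha h.symm)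
    have e : π + ((1 : ℚ) : ℝ) * exp 1 = π + exp 1 := by push_cast; ring
    rwa [e] at this

theorem result :
    -- for all real `t`, in particular for `π`
    (∀ t : ℝ, ∀ N L M : ℕ, 0 < N → N ≤ L → N ≤ M →
      discrepancy (t + exp 1) L * discrepancy (t - exp 1) M ≤ 170000 * √((1 + log N) / N)) ∧
    -- so for every `N` one of the two numbers has a small discrepancy at all scales from `N` on
    (∀ N : ℕ, 0 < N →
      (∀ M : ℕ, N ≤ M → discrepancy (π + exp 1) M ≤ 413 * √(√((1 + log N) / N))) ∨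
      (∀ M : ℕ, N ≤ M → discrepancy (π - exp 1) M ≤ 413 * √(√((1 + log N) / N)))) ∧
    -- the first inequality is sharp up to a logarithm
    (∀ N : ℕ, 0 < N → ∃ t : ℝ,
      1 / (4000 * √(N * (1 + log N))) ≤
        discrepancy (t + exp 1) N * discrepancy (t - exp 1) N) ∧
    -- the discrepancies of the multiples of a rational number do not tend to zero
    (∀ r : ℚ, ∀ N : ℕ, 1 / (3 * r.den) ≤ discrepancy r N) ∧
    (∀ (d : ℕ) (T : ℝ), ∃ κ K : ℝ, 0 < κ ∧ 0 < K ∧ ∀ t : ℝ, |t| ≤ T → OneSlope d κ K t) ∧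
    -- the numbers of the problem
    (∀ d : ℕ, ∃ κ K : ℝ, 0 < κ ∧ 0 < K ∧ ∀ N : ℕ, 0 < N →
      LooksTranscendental d κ K N (π + exp 1) ∨ LooksTranscendental d κ K N (π - exp 1)) ∧
    -- a number is transcendental exactly if the discrepancies of all values tend to zero
    (∀ y : ℝ, Transcendental ℚ y ↔ ∀ P : ℤ[X], 0 < P.natDegree →
      Filter.Tendsto (fun N : ℕ => discrepancy (aeval y P) N) Filter.atTop (nhds 0)) :=
  ⟨resultA.1,
    resultA.2.1,
    resultA.2.2.1,
    resultA.2.2.2,
    resultB.1,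
    resultB.2.1,
    resultB.2.2⟩

end

end Pool.Agent.Results.MP_363d4d_nt.AtEveryScale
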