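import Mathlib
import Pool.Agent.Q199.Dg.Disc

/-!
# Repetitions and blocks in the digits of `π + e` and `π - e`, at every scale

One of the numbers `π + e`, `π - e` is irrational, so, by the theorem of Morse and Hedlund, it has
for every `n` more than `n` different blocks of `n` digits somewhere in its infinite expansion. We
prove forms of this which hold at EVERY scale and for ALL real numbers `t` in place of `π`, and in
which the blocks are found among the first digits.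

1. For every real `t`, every base `b`, every `H` and all places `s` and lengths `n`, `l` with
   `(612 + 188 log (H² b^(s+2n))) H⁴ b^(s+3n) < b^l` there is at most one rational number `q` with
   numerator and denominator at most `H` for which two of the `n + 1` blocks of `l` digits of
   `t + q e` beginning at the places `s, …, s + n` coincide.
2. If `(612 + 188 log (H² b^(s+2n))) H⁴ b^(s+4n) < b^L` then there is at most one such `q` for which
   the digits of `t + q e` of the places `s, …, s + L - 1` contain at most `n` different blocks of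
   `n` digits.
3. The digits of `t + e` in a base `b` and of `t - e` in another base `c`.
4. For all real `t` and `n ≥ 1`: the `n + 1` blocks of `4 n + 3` decimals beginning at the first
   `n + 1` places are pairwise different for one of the numbers `t + e`, `t - e`, and the first
   `5 n + 3` decimals of one of them contain more than `n` different blocks of `n` decimals.
5. For all `d`, `T` there is `C` such that for all real `|t| ≤ T`, all bases `b`, all `s` and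
   `n ≥ 1` there is at most one rational number `q` with numerator and denominator at most
   `b^(s+n)` for which there is a nonconstant `P ∈ ℤ[X]` of degree at most `d` with coefficients at
   most `b^(s+n)` such that the digits of `P(t + q e)` of the places `s, …, s + C (s + n) - 1`
   contain at most `n` different blocks of `n` digits.
6. So for every `d` there is `C` such that for all bases `b` and all `n ≥ 1` one of the numbers
   `x = π + e, π - e` has the property that for ALL nonconstant `P ∈ ℤ[X]` of degree at most `d` with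
   coefficients at most `b^n` the first `C n` digits of `P(x)` contain more than `n` different
   blocks of `n` digits.
-/

set_option autoImplicit false

open Real Polynomial

namespace Pool.Agent.Results.MP_363d4d_nt.BlocksAtEveryScale

noncomputable section

/-- the digit of the place `n = 0, 1, …` after the point in the base `b` expansion of `x` -/
def digit (b : ℕ) (x : ℝ) (n : ℕ) : ℤ := ⌊x * (b : ℝ) ^ (n + 1)⌋ % (b : ℤ)

/-- two of the `n + 1` blocks of `l` digits of `x` which begin at the places `s, …, s + n`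
coincide -/
def Repeats (b : ℕ) (x : ℝ) (s n l : ℕ) : Prop :=
  ∃ i j, i < j ∧ j ≤ n ∧ ∀ k < l, digit b x (s + i + k) = digit b x (s + j + k)

/-- the number of different blocks of `n` digits among the digits of `x` of the places
`s, …, s + L - 1` -/
def blocks (b : ℕ) (x : ℝ) (s n L : ℕ) : ℕ :=
  ((Finset.range (L + 1 - n)).image fun i => fun k : Fin n => digit b x (s + i + k)).card

/-- the rational numbers with numerator and denominator at most `H` -/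
def Height (H : ℝ) : Set ℚ := {q | |(q.num : ℝ)| ≤ H ∧ (q.den : ℝ) ≤ H}

/-- the nonconstant integer polynomials of degree at most `d` with coefficients at most `H` -/
def Polys (d : ℕ) (H : ℝ) : Set ℤ[X] :=
  {P | 0 < P.natDegree ∧ P.natDegree ≤ d ∧ ∀ i, |(P.coeff i : ℝ)| ≤ H}

theorem rep_iff (b : ℕ) (x : ℝ) (s n l : ℕ) :
    Repeats b x s n l ↔ Pool.Agent.Q199.Dg.Rep b x s n l := Iff.rfl

theorem family (b : ℕ) (hb : 2 ≤ b) (t : ℝ) (H : ℕ) (hH : 1 ≤ H) (s n l : ℕ)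
    (hl : (612 + 188 * log ((H : ℝ) ^ 2 * (b : ℝ) ^ (s + 2 * n))) * (H : ℝ) ^ 4 *
      (b : ℝ) ^ (s + 3 * n) < (b : ℝ) ^ l) :
    {q ∈ Height H | Repeats b (t + q * exp 1) s n l}.Subsingleton := by
  rintro q ⟨⟨hq1, hq2⟩, hq⟩ q' ⟨⟨hq1', hq2'⟩, hq'⟩
  by_contra hne
  have hHR : (1 : ℝ) ≤ H := by exact_mod_cast hH
  have hb1 : (1 : ℝ) ≤ b := by exact_mod_cast (by omega : 1 ≤ b)
  have hd : (0 : ℝ) < q.den := by exact_mod_cast q.den_pos
  have hd' : (0 : ℝ) < q'.den := by exact_mod_cast q'.den_pos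
  have hqR : (q : ℝ) = q.num / q.den := by exact_mod_cast (Rat.num_div_den q).symm
  have hqR' : (q' : ℝ) = q'.num / q'.den := by exact_mod_cast (Rat.num_div_den q').symm
  have hK : q.num * (q'.den : ℤ) - q'.num * (q.den : ℤ) ≠ 0 := by
    intro h0
    apply hne
    have h1 : q.num * (q'.den : ℤ) = q'.num * (q.den : ℤ) := by linarith
    rw [← Rat.num_div_den q, ← Rat.num_div_den q', div_eq_div_iff
      (by exact_mod_cast q.den_pos.ne') (by exact_mod_cast q'.den_pos.ne')]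
    exact_mod_cast h1
  have hprod : (1 : ℝ) ≤ (H : ℝ) ^ 2 * (b : ℝ) ^ (s + 2 * n) := by
    have e1 : (1 : ℝ) ≤ (H : ℝ) ^ 2 := one_le_pow₀ hHR
    have e2 : (1 : ℝ) ≤ (b : ℝ) ^ (s + 2 * n) := one_le_pow₀ hb1
    nlinarith
  have key := Pool.Agent.Q199.Dg.one_base (t + q * exp 1) (t + q' * exp 1)
    (q.den * q'.den : ℤ) (-(q.den * q'.den : ℤ)) (q.num * (q'.den : ℤ) - q'.num * (q.den : ℤ)) 0 hK
    (by
      rw [hqR, hqR']
      push_cast
      field_simp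
      ring) b hb s n l hq hq' (2 * ((H : ℝ) ^ 2 * (b : ℝ) ^ (s + 2 * n))) (by
      have e1 : |((q.num * (q'.den : ℤ) - q'.num * (q.den : ℤ) : ℤ) : ℝ)| ≤ 2 * (H : ℝ) ^ 2 := by
        push_cast
        have e2 : |(q.num : ℝ) * q'.den| ≤ H * H := by
          rw [abs_mul, abs_of_pos hd']
          exact mul_le_mul hq1 hq2' hd'.le (by linarith)
        have e3 : |(q'.num : ℝ) * q.den| ≤ H * H := by
          rw [abs_mul, abs_of_pos hd]
          exact mul_le_mul hq1' hq2 hd.le (by linarith)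
        calc |(q.num : ℝ) * q'.den - q'.num * q.den| ≤ |(q.num : ℝ) * q'.den| +
              |(q'.num : ℝ) * q.den| := abs_sub _ _
          _ ≤ 2 * (H : ℝ) ^ 2 := by nlinarith
      calc _ ≤ 2 * (H : ℝ) ^ 2 * (b : ℝ) ^ (s + 2 * n) := by gcongr
        _ = _ := by ring)
  rw [log_mul (by norm_num) (by positivity)] at key
  have hlog : 0 ≤ log ((H : ℝ) ^ 2 * (b : ℝ) ^ (s + 2 * n)) := log_nonneg hprod
  set W := log ((H : ℝ) ^ 2 * (b : ℝ) ^ (s + 2 * n)) with hW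
  have hl2 := Real.log_two_lt_d9
  have eAB : |(((q.den * q'.den : ℤ)) : ℝ)| + |((-(q.den * q'.den : ℤ) : ℤ) : ℝ)| ≤
      2 * (H : ℝ) ^ 2 := by
    push_cast
    rw [abs_neg, abs_of_pos (by positivity)]
    have : (q.den : ℝ) * q'.den ≤ H * H := mul_le_mul hq2 hq2' hd'.le (by linarith)
    nlinarith
  have h2 : (120 + 47 * (log 2 + W)) * (2 * ((H : ℝ) ^ 2 * (b : ℝ) ^ (s + 2 * n))) *
      ((|(((q.den * q'.den : ℤ)) : ℝ)| + |((-(q.den * q'.den : ℤ) : ℤ) : ℝ)|) * (b : ℝ) ^ n) ≤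
      (153 + 47 * W) * (2 * ((H : ℝ) ^ 2 * (b : ℝ) ^ (s + 2 * n))) *
      (2 * (H : ℝ) ^ 2 * (b : ℝ) ^ n) := by
    have e3 : 120 + 47 * (log 2 + W) ≤ 153 + 47 * W := by linarith
    gcongr
  have h3 : (153 + 47 * W) * (2 * ((H : ℝ) ^ 2 * (b : ℝ) ^ (s + 2 * n))) *
      (2 * (H : ℝ) ^ 2 * (b : ℝ) ^ n) = (612 + 188 * W) * (H : ℝ) ^ 4 * (b : ℝ) ^ (s + 3 * n) := by
    rw [show s + 3 * n = s + 2 * n + n by ring, pow_add _ (s + 2 * n) n]
    ring
  linarith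

/-- `b^(L) > b^(s + 4 n)` gives room for the blocks -/
theorem length (b : ℕ) (hb : 2 ≤ b) (X : ℝ) (hX : 1 ≤ X) (s n L : ℕ)
    (h : X * (b : ℝ) ^ (s + 4 * n) < (b : ℝ) ^ L) :
    2 * n ≤ L ∧ X * (b : ℝ) ^ (s + 3 * n) < (b : ℝ) ^ (L - n) := by
  have hb1 : (1 : ℝ) < b := by exact_mod_cast (by omega : 1 < b)
  have hb0 : (0 : ℝ) < b := by linarith
  have h1 : s + 4 * n < L := by
    by_contra hcon
    have h2 : (b : ℝ) ^ L ≤ (b : ℝ) ^ (s + 4 * n) := pow_le_pow_right₀ hb1.le (by omega)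
    have h3 : (0 : ℝ) < (b : ℝ) ^ (s + 4 * n) := by positivity
    nlinarith
  refine ⟨by omega, ?_⟩
  have e1 : (b : ℝ) ^ L = (b : ℝ) ^ (L - n) * (b : ℝ) ^ n := by
    rw [← pow_add]; congr 1; omega
  have e2 : (b : ℝ) ^ (s + 4 * n) = (b : ℝ) ^ (s + 3 * n) * (b : ℝ) ^ n := by
    rw [← pow_add]; congr 1; ring
  rw [e1, e2, ← mul_assoc] at h
  exact lt_of_mul_lt_mul_right h (by positivity)

theorem family_blocks (b : ℕ) (hb : 2 ≤ b) (t : ℝ) (H : ℕ) (hH : 1 ≤ H) (s n L : ℕ)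
    (hL : (612 + 188 * log ((H : ℝ) ^ 2 * (b : ℝ) ^ (s + 2 * n))) * (H : ℝ) ^ 4 *
      (b : ℝ) ^ (s + 4 * n) < (b : ℝ) ^ L) :
    {q ∈ Height H | blocks b (t + q * exp 1) s n L ≤ n}.Subsingleton := by
  have hHR : (1 : ℝ) ≤ H := by exact_mod_cast hH
  have hb1 : (1 : ℝ) ≤ b := by exact_mod_cast (by omega : 1 ≤ b)
  have e1 : (1 : ℝ) ≤ (H : ℝ) ^ 2 := one_le_pow₀ hHR
  have e2 : (1 : ℝ) ≤ (b : ℝ) ^ (s + 2 * n) := one_le_pow₀ hb1
  have hprod : (1 : ℝ) ≤ (H : ℝ) ^ 2 * (b : ℝ) ^ (s + 2 * n) := by nlinarith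
  have hlog := log_nonneg hprod
  have e3 : (1 : ℝ) ≤ (H : ℝ) ^ 4 := one_le_pow₀ hHR
  obtain ⟨h1, h2⟩ := length b hb _ (by nlinarith) s n L hL
  refine (family b hb t H hH s n (L - n) h2).anti ?_
  rintro q ⟨hq1, hq2⟩
  exact ⟨hq1, (rep_iff _ _ _ _ _).2 (Pool.Agent.Q199.Dg.rep_of_few b _ s n L h1 hq2)⟩

theorem two_bases (b c : ℕ) (hb : 2 ≤ b) (hc : 2 ≤ c) (t : ℝ) (s n l s' n' l' : ℕ)
    (h1 : (612 + 188 * log ((b : ℝ) ^ (s + n) * (c : ℝ) ^ (s' + n'))) * (b : ℝ) ^ (s + n) *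
      (c : ℝ) ^ (2 * (s' + n')) < (b : ℝ) ^ l)
    (h2 : (612 + 188 * log ((b : ℝ) ^ (s + n) * (c : ℝ) ^ (s' + n'))) * (b : ℝ) ^ (2 * (s + n)) *
      (c : ℝ) ^ (s' + n') < (c : ℝ) ^ l') :
    ¬ Repeats b (t + exp 1) s n l ∨ ¬ Repeats c (t - exp 1) s' n' l' := by
  by_contra hcon
  push Not at hcon
  obtain ⟨hr, hr'⟩ := hcon
  have hb1 : (1 : ℝ) ≤ b := by exact_mod_cast (by omega : 1 ≤ b)
  have hc1 : (1 : ℝ) ≤ c := by exact_mod_cast (by omega : 1 ≤ c)
  set X : ℝ := (b : ℝ) ^ (s + n) with hX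
  set Y : ℝ := (c : ℝ) ^ (s' + n') with hY
  have hX1 : 1 ≤ X := one_le_pow₀ hb1
  have hY1 : 1 ≤ Y := one_le_pow₀ hc1
  have hXY : 1 ≤ X * Y := by nlinarith
  have key := Pool.Agent.Q199.Dg.two (t + exp 1) (t - exp 1) 1 (-1) 2 0 (by norm_num)
    (by push_cast; ring) b c hb hc s n l s' n' l' hr hr' (2 * (X * Y)) (by
      push_cast
      rw [← hX, ← hY, abs_of_pos (by norm_num : (0 : ℝ) < 2)]
      linarith)
  rw [log_mul (by norm_num) (by positivity), ← hX, ← hY] at key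
  have hl2 := Real.log_two_lt_d9
  have hlog := log_nonneg hXY
  set W := log (X * Y)
  have hbl : (0 : ℝ) < (b : ℝ) ^ l := by positivity
  have hcl : (0 : ℝ) < (c : ℝ) ^ l' := by positivity
  have e1 : (c : ℝ) ^ (2 * (s' + n')) = Y ^ 2 := by rw [hY, ← pow_mul]; congr 1; ring
  have e2 : (b : ℝ) ^ (2 * (s + n)) = X ^ 2 := by rw [hX, ← pow_mul]; congr 1; ring
  rw [e1] at h1
  rw [e2] at h2
  have k1 : (153 + 47 * W) * (2 * (X * Y)) * (Y / (b : ℝ) ^ l) < 1 / 2 := by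
    rw [← mul_div_assoc, div_lt_iff₀ hbl]
    linarith
  have k2 : (153 + 47 * W) * (2 * (X * Y)) * (X / (c : ℝ) ^ l') < 1 / 2 := by
    rw [← mul_div_assoc, div_lt_iff₀ hcl]
    linarith
  have k3 : (120 + 47 * (log 2 + W)) * (2 * (X * Y)) *
      (|((1 : ℤ) : ℝ)| * Y / (b : ℝ) ^ l + |((-1 : ℤ) : ℝ)| * X / (c : ℝ) ^ l') ≤
      (153 + 47 * W) * (2 * (X * Y)) * (Y / (b : ℝ) ^ l + X / (c : ℝ) ^ l') := by
    have e3 : 120 + 47 * (log 2 + W) ≤ 153 + 47 * W := by linarith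
    have e4 : |((1 : ℤ) : ℝ)| * Y / (b : ℝ) ^ l + |((-1 : ℤ) : ℝ)| * X / (c : ℝ) ^ l' =
        Y / (b : ℝ) ^ l + X / (c : ℝ) ^ l' := by
      push_cast
      rw [abs_neg, abs_one, one_mul, one_mul]
    rw [e4]
    gcongr
  linarith

theorem mem_one : (1 : ℚ) ∈ Height (1 : ℕ) := by
  constructor <;> simp

theorem mem_neg_one : (-1 : ℚ) ∈ Height (1 : ℕ) := by
  constructor <;> simp

theorem dec_cond (n : ℕ) (hn : 1 ≤ n) :
    (612 + 188 * log (((1 : ℕ) : ℝ) ^ 2 * ((10 : ℕ) : ℝ) ^ (0 + 2 * n))) * ((1 : ℕ) : ℝ) ^ 4 *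
      ((10 : ℕ) : ℝ) ^ (0 + 3 * n) < ((10 : ℕ) : ℝ) ^ (4 * n + 3) := by
  have h1 : log (((1 : ℕ) : ℝ) ^ 2 * ((10 : ℕ) : ℝ) ^ (0 + 2 * n)) ≤ 6 * n := by
    have e : ((1 : ℕ) : ℝ) ^ 2 * ((10 : ℕ) : ℝ) ^ (0 + 2 * n) = (10 : ℝ) ^ (2 * n) := by
      push_cast
      rw [one_pow, one_mul, zero_add]
    rw [e, log_pow]
    have h2 : log (10 : ℝ) ≤ 3 := by
      rw [Real.log_le_iff_le_exp (by norm_num)]
      have h3 := Real.exp_one_gt_d9
      have h4 : (2.7 : ℝ) ^ 3 ≤ exp 1 ^ 3 := pow_le_pow_left₀ (by norm_num) (by linarith) 3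
      rw [← Real.exp_nat_mul] at h4
      norm_num at h4 ⊢
      linarith
    push_cast
    have : (0 : ℝ) ≤ n := by positivity
    nlinarith
  have h2 : ∀ m : ℕ, 1 ≤ m → (612 + 1128 * m : ℝ) < 10 ^ (m + 3) := by
    intro m hm
    induction m, hm using Nat.le_induction with
    | base => norm_num
    | succ m hm ih =>
      rw [show m + 1 + 3 = (m + 3) + 1 by ring, pow_succ]
      push_cast
      have : (1 : ℝ) ≤ m := by exact_mod_cast hm
      nlinarith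
  have h3 := h2 n hn
  simp only [Nat.cast_one, one_pow, one_mul, mul_one, zero_add, Nat.cast_ofNat] at h1 ⊢
  rw [show 4 * n + 3 = (n + 3) + 3 * n by ring, pow_add _ (n + 3)]
  apply mul_lt_mul_of_pos_right _ (by positivity)
  linarith

theorem decimal (t : ℝ) (n : ℕ) (hn : 1 ≤ n) :
    ¬ Repeats 10 (t + exp 1) 0 n (4 * n + 3) ∨ ¬ Repeats 10 (t - exp 1) 0 n (4 * n + 3) := by
  by_contra hcon
  push Not at hcon
  have h := family 10 (by norm_num) t 1 le_rfl 0 n (4 * n + 3) (dec_cond n hn)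
  have h1 := h (x := 1) ⟨mem_one, by simpa using hcon.1⟩ (y := -1)
    ⟨mem_neg_one, by
      have e : t + ((-1 : ℚ) : ℝ) * exp 1 = t - exp 1 := by push_cast; ring
      rw [e]; exact hcon.2⟩
  norm_num at h1

theorem decimal_blocks (t : ℝ) (n : ℕ) (hn : 1 ≤ n) :
    n < blocks 10 (t + exp 1) 0 n (5 * n + 3) ∨ n < blocks 10 (t - exp 1) 0 n (5 * n + 3) := by
  by_contra hcon
  push Not at hcon
  have h1 := Pool.Agent.Q199.Dg.rep_of_few 10 _ 0 n (5 * n + 3) (by omega) hcon.1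
  have h2 := Pool.Agent.Q199.Dg.rep_of_few 10 _ 0 n (5 * n + 3) (by omega) hcon.2
  rw [show 5 * n + 3 - n = 4 * n + 3 by omega] at h1 h2
  rcases decimal t n hn with h | h
  · exact h h1
  · exact h h2

theorem polys (d : ℕ) (T : ℝ) : ∃ C : ℕ, ∀ t : ℝ, |t| ≤ T → ∀ b : ℕ, 2 ≤ b → ∀ s n : ℕ, 0 < n →
    {q ∈ Height ((b : ℝ) ^ (s + n)) | ∃ P ∈ Polys d ((b : ℝ) ^ (s + n)),
      blocks b (aeval (t + q * exp 1) P) s n (C * (s + n)) ≤ n}.Subsingleton := by
  obtain ⟨C, hC⟩ := Pool.Agent.Q199.Dg.trans_blocks (exp 1) Pool.Agent.Q158.EqD.measR_e T d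
  refine ⟨C, fun t ht b hb s n hn => ?_⟩
  obtain ⟨a₀, ha₀⟩ := hC t ht b hb s n hn
  have key : ∀ q ∈ {q ∈ Height ((b : ℝ) ^ (s + n)) | ∃ P ∈ Polys d ((b : ℝ) ^ (s + n)),
      blocks b (aeval (t + q * exp 1) P) s n (C * (s + n)) ≤ n}, q = a₀ := by
    rintro q ⟨⟨hq1, hq2⟩, P, ⟨hP1, hP2, hP3⟩, hP⟩
    by_contra hne
    have := ha₀ q hne hq1 hq2 P hP1 hP2 hP3
    exact absurd hP (not_le.2 this)
  intro q hq q' hq'
  rw [key q hq, key q' hq']

theorem result :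
    -- 1. repetitions
    (∀ b : ℕ, 2 ≤ b → ∀ (t : ℝ) (H : ℕ), 1 ≤ H → ∀ s n l : ℕ,
      (612 + 188 * log ((H : ℝ) ^ 2 * (b : ℝ) ^ (s + 2 * n))) * (H : ℝ) ^ 4 *
        (b : ℝ) ^ (s + 3 * n) < (b : ℝ) ^ l →
      {q ∈ Height H | Repeats b (t + q * exp 1) s n l}.Subsingleton) ∧
    -- 2. blocks
    (∀ b : ℕ, 2 ≤ b → ∀ (t : ℝ) (H : ℕ), 1 ≤ H → ∀ s n L : ℕ,
      (612 + 188 * log ((H : ℝ) ^ 2 * (b : ℝ) ^ (s + 2 * n))) * (H : ℝ) ^ 4 *
        (b : ℝ) ^ (s + 4 * n) < (b : ℝ) ^ L →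
      {q ∈ Height H | blocks b (t + q * exp 1) s n L ≤ n}.Subsingleton) ∧
    -- 3. two bases
    (∀ b c : ℕ, 2 ≤ b → 2 ≤ c → ∀ (t : ℝ) (s n l s' n' l' : ℕ),
      (612 + 188 * log ((b : ℝ) ^ (s + n) * (c : ℝ) ^ (s' + n'))) * (b : ℝ) ^ (s + n) *
        (c : ℝ) ^ (2 * (s' + n')) < (b : ℝ) ^ l →
      (612 + 188 * log ((b : ℝ) ^ (s + n) * (c : ℝ) ^ (s' + n'))) * (b : ℝ) ^ (2 * (s + n)) *
        (c : ℝ) ^ (s' + n') < (c : ℝ) ^ l' →
      ¬ Repeats b (t + exp 1) s n l ∨ ¬ Repeats c (t - exp 1) s' n' l') ∧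
    -- 4. the first decimals
    (∀ (t : ℝ) (n : ℕ), 1 ≤ n →
      (¬ Repeats 10 (t + exp 1) 0 n (4 * n + 3) ∨ ¬ Repeats 10 (t - exp 1) 0 n (4 * n + 3)) ∧
      (n < blocks 10 (t + exp 1) 0 n (5 * n + 3) ∨ n < blocks 10 (t - exp 1) 0 n (5 * n + 3))) ∧
    -- 5. values of polynomials
    (∀ (d : ℕ) (T : ℝ), ∃ C : ℕ, ∀ t : ℝ, |t| ≤ T → ∀ b : ℕ, 2 ≤ b → ∀ s n : ℕ, 0 < n →
      {q ∈ Height ((b : ℝ) ^ (s + n)) | ∃ P ∈ Polys d ((b : ℝ) ^ (s + n)),
        blocks b (aeval (t + q * exp 1) P) s n (C * (s + n)) ≤ n}.Subsingleton) ∧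
    -- 6. the numbers of the problem
    (∀ d : ℕ, ∃ C : ℕ, ∀ b : ℕ, 2 ≤ b → ∀ n : ℕ, 0 < n →
      (∀ P ∈ Polys d ((b : ℝ) ^ n), n < blocks b (aeval (π + exp 1) P) 0 n (C * n)) ∨
      (∀ P ∈ Polys d ((b : ℝ) ^ n), n < blocks b (aeval (π - exp 1) P) 0 n (C * n))) := by
  refine ⟨family, family_blocks, two_bases, fun t n hn => ⟨decimal t n hn, decimal_blocks t n hn⟩,
    polys, fun d => ?_⟩
  obtain ⟨C, hC⟩ := polys d π
  refine ⟨C, fun b hb n hn => ?_⟩
  by_contra hcon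
  push Not at hcon
  obtain ⟨⟨P, hP1, hP2⟩, ⟨R, hR1, hR2⟩⟩ := hcon
  have h := hC π (by rw [abs_of_pos Real.pi_pos]) b hb 0 n hn
  have hone : (1 : ℝ) ≤ (b : ℝ) ^ (0 + n) := one_le_pow₀ (by exact_mod_cast (by omega : 1 ≤ b))
  have h1 := h (x := 1) ⟨⟨by simpa using hone, by simpa using hone⟩, P, by
      rw [zero_add]; exact hP1, by
      rw [zero_add]
      have e : π + ((1 : ℚ) : ℝ) * exp 1 = π + exp 1 := by push_cast; ring
      rw [e]; exact hP2⟩ (y := -1)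
    ⟨⟨by simpa using hone, by simpa using hone⟩, R, by rw [zero_add]; exact hR1, by
      rw [zero_add]
      have e : π + ((-1 : ℚ) : ℝ) * exp 1 = π - exp 1 := by push_cast; ring
      rw [e]; exact hR2⟩
  norm_num at h1

end

end Pool.Agent.Results.MP_363d4d_nt.BlocksAtEveryScale
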