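import Mathlib
import Pool.Agent.Q163.LE.Scales
import Pool.Agent.TH456.TM.E

set_option autoImplicit false

/-!
# Expansions of `t + e` and `t - e` with few Lempel–Ziv phrases

Cut the first `N` digits of `x` in base `b` into phrases; each phrase is one digit or a copy of a
block of digits which begins earlier (and may overlap with the phrase). Let `z_b(x, N)` be the
least number of phrases (Lempel–Ziv complexity; it is a lower bound for the size of grammars and of
similar descriptions of the digits).

(1) Let `S` be an infinite set of positive integers and let `K` be the field generated by all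
real numbers `x` with `z_b(x, N) = o(log N)`, `N ∈ S`, for some base `b` which may depend on `x`
(for instance `∑ 10 ^ (-n!)`; there are such numbers with every block of digits). Then `e`, `π`
and the numbers `log q` (`q > 0`, `q ≠ 1` rational) are transcendental over `K`, and for every real
`t`, of two forms `x t + y e + z`, `x' t + y' e + z'` with coefficients algebraic over `K` and
with `x y' ≠ x' y` one is transcendental over `K`; for instance of `π + e` and `π - e`.

(2) For all bases `b`, `c` and two such forms `u`, `v` with coefficients algebraic over `ℚ` there is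
`κ > 0` with `z_b(u, N) + z_c(v, N) ≥ κ log N` for all large `N`.

(3) For all `b`, `c` and `η > 0` there is `C` such that
`z_b(t + e, N) + z_c(t - e, N) ≥ log N / log (4 + η) - C` for ALL real `t` and all `N ≥ 1`.

Proof. If no phrase of the given numbers begins in a window `[T, w T)` of (scaled) positions, all
these numbers have rational approximations with denominators at most `exp T` and errors at most
`2 exp (- w T)`. Finitely many numbers with `o(log N)` phrases have free windows for every `w`. The
numbers which have such approximations at common scales form a field, and no number with a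
transcendence measure of finite type in every degree is algebraic over it.
-/

namespace Pool.Agent.Results.MP_363d4d_nt.FewPhrases

open Filter Topology Pool.Agent.Q163.LE

/-- the field generated by all real numbers `x` such that, for some base `b`,
`phrases b x N / log N` tends to `0` as `N` tends to infinity in `S` -/
noncomputable def field (S : Set ℕ) : Subfield ℝ := Subfield.closure {x : ℝ | ∃ b : ℕ, 2 ≤ b ∧
  Tendsto (fun N : ℕ => (phrases b x N : ℝ) / Real.log N) (atTop ⊓ 𝓟 S) (𝓝 0)}

/-- `x t + y e + z` -/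
noncomputable def form (t x y z : ℝ) : ℝ := x * t + y * Real.exp 1 + z

/-- Of two forms `x t + y e + z`, `x' t + y' e + z'` with coefficients algebraic over `K` and
with `x y' ≠ x' y` one is transcendental over `K`. -/
def OneOfTwo (K : Subfield ℝ) (t : ℝ) : Prop :=
  ∀ x y z x' y' z' : ℝ, IsAlgebraic K x → IsAlgebraic K y → IsAlgebraic K z → IsAlgebraic K x' →
    IsAlgebraic K y' → IsAlgebraic K z' → x * y' ≠ x' * y →
    Transcendental K (form t x y z) ∨ Transcendental K (form t x' y' z')

/-- both numbers are forms in `t` and `e` with coefficients algebraic over `ℚ` and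
`x y' ≠ x' y` -/
def Pair (t u v : ℝ) : Prop :=
  ∃ x y z x' y' z' : ℝ, IsAlgebraic ℚ x ∧ IsAlgebraic ℚ y ∧ IsAlgebraic ℚ z ∧ IsAlgebraic ℚ x' ∧
    IsAlgebraic ℚ y' ∧ IsAlgebraic ℚ z' ∧ x * y' ≠ x' * y ∧ u = form t x y z ∧
    v = form t x' y' z'

theorem oneOfTwo_of {K : Subfield ℝ} (h : Transcendental K (Real.exp 1)) (t : ℝ) :
    OneOfTwo K t := by
  intro x y z x' y' z' hx hy hz hx' hy' hz' hne
  by_contra hcon
  unfold Transcendental at hcon
  push Not at hcon
  obtain ⟨h1, h2⟩ := hcon
  apply h
  have hd : x * y' - x' * y ≠ 0 := sub_ne_zero.2 hne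
  have h3 : IsAlgebraic K (x * form t x' y' z' - x' * form t x y z - (x * z' - x' * z)) :=
    ((hx.mul h2).sub (hx'.mul h1)).sub ((hx.mul hz').sub (hx'.mul hz))
  have h4 : IsAlgebraic K (x * y' - x' * y) := (hx.mul hy').sub (hx'.mul hy)
  have e : Real.exp 1 = (x * form t x' y' z' - x' * form t x y z - (x * z' - x' * z)) *
      (x * y' - x' * y)⁻¹ := by
    rw [eq_mul_inv_iff_mul_eq₀ hd]
    unfold form
    ring
  rw [e]
  exact h3.mul h4.inv

theorem alg_of_rat {K : Subfield ℝ} {x : ℝ} (h : IsAlgebraic ℚ x) : IsAlgebraic K x :=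
  h.extendScalars (R := ℚ) (S := K) (algebraMap ℚ K).injective

theorem OneOfTwo.pair {K : Subfield ℝ} {t : ℝ} (h : OneOfTwo K t) {u v : ℝ} (huv : Pair t u v) :
    Transcendental K u ∨ Transcendental K v := by
  obtain ⟨x, y, z, x', y', z', hx, hy, hz, hx', hy', hz', hne, rfl, rfl⟩ := huv
  exact h x y z x' y' z' (alg_of_rat hx) (alg_of_rat hy) (alg_of_rat hz) (alg_of_rat hx')
    (alg_of_rat hy') (alg_of_rat hz') hne

theorem not_transc {K : Subfield ℝ} {x : ℝ} (h : x ∈ K) : ¬ Transcendental K x := by
  intro h1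
  exact h1 (isAlgebraic_algebraMap (⟨x, h⟩ : K))

theorem transc_field (S : Set ℕ) (hS : S.Infinite) (θ : ℝ)
    (hθ : Pool.Agent.TH456.TM.MeasT (θ : ℂ)) : Transcendental (field S) θ :=
  transc S hS θ hθ

theorem pair_bound (b c : ℕ) (hb : 2 ≤ b) (hc : 2 ≤ c) (u v : ℝ)
    (h : ∀ S : Set ℕ, S.Infinite → ¬ (u ∈ field S ∧ v ∈ field S)) :
    ∃ κ : ℝ, 0 < κ ∧ ∀ᶠ N : ℕ in atTop,
      κ * Real.log N ≤ (phrases b u N : ℝ) + phrases c v N := by
  classical
  by_contra hcon
  push Not at hcon
  have hex : ∀ k : ℕ, ∃ N : ℕ, k + 2 ≤ N ∧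
      (phrases b u N : ℝ) + phrases c v N < 1 / ((k : ℝ) + 1) * Real.log N := by
    intro k
    have h1 := (hcon (1 / ((k : ℝ) + 1)) (by positivity)).and_eventually
      (eventually_ge_atTop (k + 2))
    obtain ⟨N, h2, h3⟩ := h1.exists
    exact ⟨N, h3, h2⟩
  choose f hf1 hf2 using hex
  have hS : (Set.range f).Infinite := by
    intro hfin
    obtain ⟨M, hM⟩ := hfin.bddAbove
    have h1 := hM (Set.mem_range_self M)
    have h2 := hf1 M
    omega
  have hlim : Tendsto (fun N : ℕ => ((phrases b u N : ℝ) + phrases c v N) / Real.log N)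
      (atTop ⊓ 𝓟 (Set.range f)) (𝓝 0) := by
    rw [Metric.tendsto_nhds]
    intro ε hε
    obtain ⟨K, hK⟩ := exists_nat_one_div_lt hε
    rw [Filter.eventually_inf_principal]
    filter_upwards [eventually_gt_atTop ((Finset.range (K + 1)).sup f)] with N hN hNS
    obtain ⟨k, rfl⟩ := hNS
    have hk : K < k := by
      by_contra hle
      have h1 : f k ≤ (Finset.range (K + 1)).sup f :=
        Finset.le_sup (Finset.mem_range.2 (by omega))
      omega
    have hlog : 0 < Real.log (f k) := Real.log_pos (by
      have := hf1 k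
      exact_mod_cast (by omega : 1 < f k))
    have h0 : 0 ≤ ((phrases b u (f k) : ℝ) + phrases c v (f k)) / Real.log (f k) := by
      positivity
    rw [Real.dist_eq, sub_zero, abs_of_nonneg h0, div_lt_iff₀ hlog]
    refine (hf2 k).trans_le (mul_le_mul_of_nonneg_right ?_ hlog.le)
    refine le_trans ?_ hK.le
    have h2 : (K : ℝ) ≤ k := by exact_mod_cast hk.le
    exact one_div_le_one_div_of_le (by positivity) (by linarith)
  have hpos : ∀ᶠ N : ℕ in atTop ⊓ 𝓟 (Set.range f), 0 ≤ Real.log N := by
    refine Eventually.filter_mono inf_le_left ?_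
    filter_upwards [eventually_ge_atTop 1] with N hN
    exact Real.log_nonneg (by exact_mod_cast hN)
  refine h _ hS ⟨Subfield.subset_closure ⟨b, hb, ?_⟩, Subfield.subset_closure ⟨c, hc, ?_⟩⟩
  · refine tendsto_of_tendsto_of_tendsto_of_le_of_le' tendsto_const_nhds hlim ?_ ?_
    · filter_upwards [hpos] with N hN
      positivity
    · filter_upwards [hpos] with N hN
      exact div_le_div_of_nonneg_right (by linarith [(Nat.cast_nonneg (phrases c v N) : (0 : ℝ) ≤ _)])
        hN
  · refine tendsto_of_tendsto_of_tendsto_of_le_of_le' tendsto_const_nhds hlim ?_ ?_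
    · filter_upwards [hpos] with N hN
      positivity
    · filter_upwards [hpos] with N hN
      exact div_le_div_of_nonneg_right (by linarith [(Nat.cast_nonneg (phrases b u N) : (0 : ℝ) ≤ _)])
        hN

/-- **Lempel–Ziv complexity and the numbers `t + e`, `t - e`.** See the text at the beginning. -/
theorem result :
    -- (1)
    (∀ S : Set ℕ, S.Infinite →
      Transcendental (field S) (Real.exp 1) ∧ Transcendental (field S) Real.pi ∧
      (∀ q : ℚ, 0 < q → q ≠ 1 → Transcendental (field S) (Real.log q)) ∧
      ∀ t : ℝ, OneOfTwo (field S) t) ∧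
    (∀ S : Set ℕ, S.Infinite →
      Transcendental (field S) (Real.pi + Real.exp 1) ∨
      Transcendental (field S) (Real.pi - Real.exp 1)) ∧
    -- (2)
    (∀ b c : ℕ, 2 ≤ b → 2 ≤ c → ∀ t u v : ℝ, Pair t u v → ∃ κ : ℝ, 0 < κ ∧
      ∀ᶠ N : ℕ in atTop, κ * Real.log N ≤ (phrases b u N : ℝ) + phrases c v N) ∧
    -- (3)
    (∀ b c : ℕ, 2 ≤ b → 2 ≤ c → ∀ η : ℝ, 0 < η → ∃ C : ℝ, ∀ t : ℝ, ∀ N : ℕ, 1 ≤ N →
      Real.log N / Real.log (4 + η) - C ≤
        (phrases b (t + Real.exp 1) N : ℝ) + phrases c (t - Real.exp 1) N) := by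
  have h1 : ∀ S : Set ℕ, S.Infinite → ∀ t : ℝ, OneOfTwo (field S) t := fun S hS t =>
    oneOfTwo_of (transc_field S hS _ Pool.Agent.TH456.TM.measT_e) t
  refine ⟨fun S hS => ⟨transc_field S hS _ Pool.Agent.TH456.TM.measT_e,
    transc_field S hS _ Pool.Agent.TH456.TM.measT_pi,
    fun q hq hq1 => transc_field S hS _ (Pool.Agent.TH456.TM.measT_real_log q hq hq1), h1 S hS⟩,
    fun S hS => ?_, fun b c hb hc t u v huv => ?_, fun b c hb hc η hη => explicit b c hb hc η hη⟩
  · refine (h1 S hS Real.pi).pair ⟨1, 1, 0, 1, -1, 0, isAlgebraic_one, isAlgebraic_one,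
      isAlgebraic_zero, isAlgebraic_one, isAlgebraic_one.neg, isAlgebraic_zero, by norm_num,
      ?_, ?_⟩
    · unfold form; ring
    · unfold form; ring
  · refine pair_bound b c hb hc u v fun S hS hmem => ?_
    rcases (h1 S hS t).pair huv with h | h
    · exact not_transc hmem.1 h
    · exact not_transc hmem.2 h

end Pool.Agent.Results.MP_363d4d_nt.FewPhrases
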