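import Mathlib
import Pool.Agent.Q123.US.One

/-!
# The equation `g + h = 1` in the group of the numbers `α π^s e^r`

Let `x ≠ 0` be any complex number, for example `x = π`, and let `Γ` be the group of all numbers
`α x^s e^r` with `α ≠ 0` and `r` algebraic and `s` rational.

(1) The equation `g + h = 1` has at most six solutions in `Γ` with transcendental `g`. If there is
one, there are exactly six, and they are obtained from each other by the obvious symmetries. For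
some `x` there are six.

(2) If there is such a solution, then all the numbers `x^s e^r`, `(s, r) ≠ (0, 0)`, are
transcendental.

(3) If `x` is real and positive, the exponents of a solution are real, up to three exceptional
shapes.

(4) At most one of all the numbers `a x^i e^j + b x^k e^l` (nonnegative integers `i, j, k, l` with
`i l ≠ j k`, algebraic `a, b ≠ 0`) is a nonzero algebraic number, up to algebraic factors. In
particular at most one of the numbers `π^s + e^r`, `s ≠ 0` rational and `r ≠ 0` real and algebraic,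
is algebraic.

(5) Let `x_1, …, x_m` be `m` numbers. If there are `κ` algebraic monomials `e^r ∏ x_j^{s_j}` and `p`
solutions of `g + h = 1` with `κ + 2 p` independent exponents, then `κ + p ≤ m`; and if
`κ + p = m`, then there are exactly `6 p` solutions with transcendental `g`: those which arise from
the `p` given ones by the obvious symmetries.
-/

set_option autoImplicit false

namespace Pool.Agent.Results.MP_363d4d_nt.SixSolutions

open Complex

/-- the group of the numbers `α x^s e^r`, `α ≠ 0` and `r` algebraic, `s` rational -/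
def Group (x : ℂ) : Set ℂ :=
  {z | ∃ (a r : ℂ) (s : ℚ), IsAlgebraic ℚ a ∧ a ≠ 0 ∧ IsAlgebraic ℚ r ∧
    z = a * x ^ (s : ℂ) * exp r}

/-- the solutions of `g + h = 1` in the group with transcendental `g` -/
def Solutions (x : ℂ) : Set (ℂ × ℂ) :=
  {p | p.1 ∈ Group x ∧ p.2 ∈ Group x ∧ p.1 + p.2 = 1 ∧ Transcendental ℚ p.1}

/-- the six pairs obtained from `(g, h)` -/
def Six (g h : ℂ) : Set (ℂ × ℂ) :=
  {(g, h), (h, g), (1 / g, -h / g), (-h / g, 1 / g), (1 / h, -g / h), (-g / h, 1 / h)}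

/-- the logarithm `∑ s_j lam_j + r` with the exponents `w = (s, r)` -/
noncomputable def logOf {m : ℕ} (lam : Fin m → ℂ) (w : (Fin m → ℚ) × ℂ) : ℂ :=
  ∑ j, (w.1 j : ℂ) * lam j + w.2

/-- `z = a e^{logOf w}` with algebraic `a ≠ 0` and algebraic last exponent -/
def HasExponents {m : ℕ} (lam : Fin m → ℂ) (z : ℂ) (w : (Fin m → ℚ) × ℂ) : Prop :=
  IsAlgebraic ℚ w.2 ∧ ∃ a : ℂ, IsAlgebraic ℚ a ∧ a ≠ 0 ∧ z = a * exp (logOf lam w)

/-- `g + h = 1` is a solution with transcendental `g` and with exponents `u`, `v` -/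
def IsSolution {m : ℕ} (lam : Fin m → ℂ) (g h : ℂ) (u v : (Fin m → ℚ) × ℂ) : Prop :=
  g + h = 1 ∧ Transcendental ℚ g ∧ HasExponents lam g u ∧ HasExponents lam h v

theorem hasExponents_iff {m : ℕ} (lam : Fin m → ℂ) (z : ℂ) (w : (Fin m → ℚ) × ℂ) :
    HasExponents lam z w ↔ Q123.US.Rep lam z w := by
  unfold HasExponents Q123.US.Rep logOf
  rw [← Q123.US.ell_apply]

theorem isSolution_iff {m : ℕ} (lam : Fin m → ℂ) (g h : ℂ) (u v : (Fin m → ℚ) × ℂ) :
    IsSolution lam g h u v ↔ Q123.US.Sol lam g h u v := by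
  constructor
  · rintro ⟨h1, h2, h3, h4⟩
    exact ⟨h1, h2, (hasExponents_iff _ _ _).mp h3, (hasExponents_iff _ _ _).mp h4⟩
  · rintro ⟨h1, h2, h3, h4⟩
    exact ⟨h1, h2, (hasExponents_iff _ _ _).mpr h3, (hasExponents_iff _ _ _).mpr h4⟩

theorem six_iff {g h g1 h1 : ℂ} : (g1, h1) ∈ Six g h ↔ Q123.US.Orbit g h g1 h1 := by
  unfold Six Q123.US.Orbit
  simp only [Set.mem_insert_iff, Set.mem_singleton_iff, Prod.mk.injEq]

theorem Group_eq {x : ℂ} (hx : x ≠ 0) : Group x = Q123.US.Gam (fun _ : Fin 1 => log x) := by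
  ext z
  constructor
  · rintro ⟨a, r, s, ha, ha0, hr, rfl⟩
    refine ⟨a, r, fun _ => s, ha, ha0, hr, ?_⟩
    rw [cpow_def_of_ne_zero hx, mul_assoc, ← exp_add]
    simp [mul_comm]
  · rintro ⟨a, r, s, ha, ha0, hr, rfl⟩
    refine ⟨a, r, s 0, ha, ha0, hr, ?_⟩
    rw [cpow_def_of_ne_zero hx, mul_assoc, ← exp_add]
    simp [mul_comm]

theorem Solutions_eq {x : ℂ} (hx : x ≠ 0) :
    Solutions x = Q123.US.Sols (fun _ : Fin 1 => log x) := by
  unfold Solutions Q123.US.Sols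
  rw [Group_eq hx]

theorem rep_monomial {x : ℂ} (hx : x ≠ 0) {a r : ℂ} {s : ℚ} (ha : IsAlgebraic ℚ a) (ha0 : a ≠ 0)
    (hr : IsAlgebraic ℚ r) :
    Q123.US.Rep (fun _ : Fin 1 => log x) (a * x ^ (s : ℂ) * exp r) (fun _ => s, r) := by
  refine ⟨hr, a, ha, ha0, ?_⟩
  rw [Q123.US.ell_apply, cpow_def_of_ne_zero hx, mul_assoc, ← exp_add]
  simp [mul_comm]

theorem rep_nat {x : ℂ} (hx : x ≠ 0) {a : ℂ} (i j : ℕ) (ha : IsAlgebraic ℚ a) (ha0 : a ≠ 0) :
    Q123.US.Rep (fun _ : Fin 1 => log x) (a * x ^ i * exp 1 ^ j) (fun _ => (i : ℚ), (j : ℂ)) := by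
  have h1 := rep_monomial hx (s := (i : ℚ)) ha ha0
    (isAlgebraic_natCast (R := ℚ) (A := ℂ) j)
  have e1 : x ^ (((i : ℚ)) : ℂ) = x ^ i := by
    rw [Rat.cast_natCast, cpow_natCast]
  have e2 : exp (j : ℂ) = exp 1 ^ j := by
    rw [← exp_nat_mul, mul_one]
  rwa [e1, e2] at h1

/-- solutions coming from nonnegative integer exponents -/
theorem sol_nat {x : ℂ} (hx : x ≠ 0) {a b N : ℂ} {i j k l : ℕ} (ha : IsAlgebraic ℚ a)
    (ha0 : a ≠ 0) (hb : IsAlgebraic ℚ b) (hb0 : b ≠ 0) (hdet : i * l ≠ j * k)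
    (hN : a * x ^ i * exp 1 ^ j + b * x ^ k * exp 1 ^ l = N) (hN0 : N ≠ 0)
    (hNa : IsAlgebraic ℚ N) :
    Q123.US.Sol (fun _ : Fin 1 => log x) (a / N * x ^ i * exp 1 ^ j) (b / N * x ^ k * exp 1 ^ l)
      (fun _ => (i : ℚ), (j : ℂ)) (fun _ => (k : ℚ), (l : ℂ)) := by
  have haN : IsAlgebraic ℚ (a / N) := by rw [div_eq_mul_inv]; exact ha.mul hNa.inv
  have hbN : IsAlgebraic ℚ (b / N) := by rw [div_eq_mul_inv]; exact hb.mul hNa.inv
  have hsum : a / N * x ^ i * exp 1 ^ j + b / N * x ^ k * exp 1 ^ l = 1 := by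
    rw [← hN] at hN0 ⊢
    field_simp
  have hr1 := rep_nat hx i j haN (div_ne_zero ha0 hN0)
  have hr2 := rep_nat hx k l hbN (div_ne_zero hb0 hN0)
  refine ⟨hsum, ?_, hr1, hr2⟩
  intro halg
  have halg2 : IsAlgebraic ℚ (b / N * x ^ k * exp 1 ^ l) := by
    have : b / N * x ^ k * exp 1 ^ l = 1 - a / N * x ^ i * exp 1 ^ j := by
      linear_combination hsum
    rw [this]
    exact isAlgebraic_one.sub halg
  obtain ⟨D, hD⟩ := Q123.US.exists_dl LinearMap.id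
  have h1 := hr1.der D
  have h2 := hr2.der D
  rw [Q123.US.der_alg D halg] at h1
  rw [Q123.US.der_alg D halg2] at h2
  have h3 := (mul_eq_zero.mp h1.symm).resolve_left hr1.ne_zero
  have h4 := (mul_eq_zero.mp h2.symm).resolve_left hr2.ne_zero
  rw [Q123.US.ell_apply, map_add] at h3 h4
  simp only [Finset.univ_unique, Finset.sum_singleton] at h3 h4
  have e1 : ∀ n : ℕ, Q123.US.dl D (n : ℂ) = (n : ℂ) := fun n =>
    hD _ (isAlgebraic_natCast (R := ℚ) (A := ℂ) n)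
  have e2 : ∀ n : ℕ, Q123.US.dl D (((n : ℚ) : ℂ) * log x) = (n : ℂ) * Q123.US.dl D (log x) := by
    intro n
    have : (((n : ℚ) : ℂ) * log x) = (n : ℚ) • log x := by
      rw [Algebra.smul_def]; rfl
    rw [this, map_smul, Algebra.smul_def]
    simp
  rw [e1, e2] at h3 h4
  have h5 : ((i : ℂ) * l - j * k) = 0 := by
    linear_combination (i : ℂ) * h4 - (k : ℂ) * h3
  apply hdet
  have h6 : ((i * l : ℕ) : ℂ) = ((j * k : ℕ) : ℂ) := by
    push_cast
    linear_combination h5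
  exact_mod_cast h6

/-- **Nonnegative integer exponents.** -/
theorem nat_exponents {x : ℂ} (hx : x ≠ 0) {a b N a' b' N' : ℂ} {i j k l i' j' k' l' : ℕ}
    (ha : IsAlgebraic ℚ a) (ha0 : a ≠ 0) (hb : IsAlgebraic ℚ b) (hb0 : b ≠ 0)
    (hdet : i * l ≠ j * k) (hN : a * x ^ i * exp 1 ^ j + b * x ^ k * exp 1 ^ l = N) (hN0 : N ≠ 0)
    (hNa : IsAlgebraic ℚ N)
    (ha' : IsAlgebraic ℚ a') (ha0' : a' ≠ 0) (hb' : IsAlgebraic ℚ b') (hb0' : b' ≠ 0)
    (hdet' : i' * l' ≠ j' * k') (hN' : a' * x ^ i' * exp 1 ^ j' + b' * x ^ k' * exp 1 ^ l' = N')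
    (hN0' : N' ≠ 0) (hNa' : IsAlgebraic ℚ N') :
    (i' = i ∧ j' = j ∧ k' = k ∧ l' = l ∧ a' * N = a * N' ∧ b' * N = b * N') ∨
    (i' = k ∧ j' = l ∧ k' = i ∧ l' = j ∧ a' * N = b * N' ∧ b' * N = a * N') := by
  have S := sol_nat hx ha ha0 hb hb0 hdet hN hN0 hNa
  have S' := sol_nat hx ha' ha0' hb' hb0' hdet' hN' hN0' hNa'
  have hO := Q123.US.orbit_one S S'
  have hex : exp (1 : ℂ) ≠ 0 := exp_ne_zero 1
  have hpow : ∀ p q : ℕ, x ^ p * exp 1 ^ q ≠ 0 := fun p q =>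
    mul_ne_zero (pow_ne_zero p hx) (pow_ne_zero q hex)
  rcases Q123.US.exps_of_orbit S S' hO with ⟨H1, H2, H3, H4⟩ | ⟨H1, H2, H3, H4⟩ | ⟨H3, H4⟩ |
    ⟨H3, H4⟩ | ⟨H3, H4⟩ | ⟨H3, H4⟩
  · left
    have i1 : i' = i := by
      have : (i' : ℚ) = (i : ℚ) := congrFun (congrArg Prod.fst H3) 0
      exact_mod_cast this
    have j1 : j' = j := by
      have : (j' : ℂ) = (j : ℂ) := congrArg Prod.snd H3
      exact_mod_cast this
    have k1 : k' = k := by
      have : (k' : ℚ) = (k : ℚ) := congrFun (congrArg Prod.fst H4) 0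
      exact_mod_cast this
    have l1 : l' = l := by
      have : (l' : ℂ) = (l : ℂ) := congrArg Prod.snd H4
      exact_mod_cast this
    subst i1; subst j1; subst k1; subst l1
    refine ⟨rfl, rfl, rfl, rfl, ?_, ?_⟩
    · have h1 : a' / N' = a / N := by
        apply mul_right_cancel₀ (hpow i' j')
        rw [← mul_assoc, ← mul_assoc]
        exact H1
      rw [div_eq_div_iff hN0' hN0] at h1
      exact h1
    · have h1 : b' / N' = b / N := by
        apply mul_right_cancel₀ (hpow k' l')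
        rw [← mul_assoc, ← mul_assoc]
        exact H2
      rw [div_eq_div_iff hN0' hN0] at h1
      exact h1
  · right
    have i1 : i' = k := by
      have : (i' : ℚ) = (k : ℚ) := congrFun (congrArg Prod.fst H3) 0
      exact_mod_cast this
    have j1 : j' = l := by
      have : (j' : ℂ) = (l : ℂ) := congrArg Prod.snd H3
      exact_mod_cast this
    have k1 : k' = i := by
      have : (k' : ℚ) = (i : ℚ) := congrFun (congrArg Prod.fst H4) 0
      exact_mod_cast this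
    have l1 : l' = j := by
      have : (l' : ℂ) = (j : ℂ) := congrArg Prod.snd H4
      exact_mod_cast this
    subst i1; subst j1; subst k1; subst l1
    refine ⟨rfl, rfl, rfl, rfl, ?_, ?_⟩
    · have h1 : a' / N' = b / N := by
        apply mul_right_cancel₀ (hpow i' j')
        rw [← mul_assoc, ← mul_assoc]
        exact H1
      rw [div_eq_div_iff hN0' hN0] at h1
      exact h1
    · have h1 : b' / N' = a / N := by
        apply mul_right_cancel₀ (hpow k' l')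
        rw [← mul_assoc, ← mul_assoc]
        exact H2
      rw [div_eq_div_iff hN0' hN0] at h1
      exact h1
  · exfalso
    have h1 : (i' : ℚ) = -(i : ℚ) := congrFun (congrArg Prod.fst H3) 0
    have h2 : (j' : ℂ) = -(j : ℂ) := congrArg Prod.snd H3
    have h3 : ((i' + i : ℕ) : ℚ) = 0 := by push_cast; linarith
    have h4 : ((j' + j : ℕ) : ℂ) = 0 := by push_cast; linear_combination h2
    have h5 : i' + i = 0 := by exact_mod_cast h3
    have h6 : j' + j = 0 := by exact_mod_cast h4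
    have h7 : i = 0 := by omega
    have h8 : j = 0 := by omega
    apply hdet
    rw [h7, h8, zero_mul, zero_mul]
  · exfalso
    have h1 : (k' : ℚ) = -(i : ℚ) := congrFun (congrArg Prod.fst H4) 0
    have h2 : (l' : ℂ) = -(j : ℂ) := congrArg Prod.snd H4
    have h3 : ((k' + i : ℕ) : ℚ) = 0 := by push_cast; linarith
    have h4 : ((l' + j : ℕ) : ℂ) = 0 := by push_cast; linear_combination h2
    have h5 : k' + i = 0 := by exact_mod_cast h3
    have h6 : l' + j = 0 := by exact_mod_cast h4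
    have h7 : i = 0 := by omega
    have h8 : j = 0 := by omega
    apply hdet
    rw [h7, h8, zero_mul, zero_mul]
  · exfalso
    have h1 : (i' : ℚ) = -(k : ℚ) := congrFun (congrArg Prod.fst H3) 0
    have h2 : (j' : ℂ) = -(l : ℂ) := congrArg Prod.snd H3
    have h3 : ((i' + k : ℕ) : ℚ) = 0 := by push_cast; linarith
    have h4 : ((j' + l : ℕ) : ℂ) = 0 := by push_cast; linear_combination h2
    have h5 : i' + k = 0 := by exact_mod_cast h3
    have h6 : j' + l = 0 := by exact_mod_cast h4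
    have h7 : k = 0 := by omega
    have h8 : l = 0 := by omega
    apply hdet
    rw [h7, h8, mul_zero, mul_zero]
  · exfalso
    have h1 : (k' : ℚ) = -(k : ℚ) := congrFun (congrArg Prod.fst H4) 0
    have h2 : (l' : ℂ) = -(l : ℂ) := congrArg Prod.snd H4
    have h3 : ((k' + k : ℕ) : ℚ) = 0 := by push_cast; linarith
    have h4 : ((l' + l : ℕ) : ℂ) = 0 := by push_cast; linear_combination h2
    have h5 : k' + k = 0 := by exact_mod_cast h3
    have h6 : l' + l = 0 := by exact_mod_cast h4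
    have h7 : k = 0 := by omega
    have h8 : l = 0 := by omega
    apply hdet
    rw [h7, h8, mul_zero, mul_zero]

theorem transcendental_exp {r : ℂ} (hr : IsAlgebraic ℚ r) (hr0 : r ≠ 0) :
    Transcendental ℚ (exp r) := by
  intro h
  obtain ⟨D, hD⟩ := Q123.US.exists_dl LinearMap.id
  have h1 := Q123.US.der_exp D r
  rw [Q123.US.der_alg D h, hD r hr, LinearMap.id_apply] at h1
  exact mul_ne_zero (exp_ne_zero r) hr0 h1.symm

/-- **At most one of the numbers `π^s + e^r` is algebraic.** -/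
theorem pi_exp {s s' : ℚ} {r r' : ℝ} (hs : s ≠ 0) (hs' : s' ≠ 0) (hr : r ≠ 0) (hr' : r' ≠ 0)
    (har : IsAlgebraic ℚ r) (har' : IsAlgebraic ℚ r')
    (h : IsAlgebraic ℚ (Real.pi ^ (s : ℝ) + Real.exp r))
    (h' : IsAlgebraic ℚ (Real.pi ^ (s' : ℝ) + Real.exp r')) : s' = s ∧ r' = r := by
  have hpi : ((Real.pi : ℝ) : ℂ) ≠ 0 := by exact_mod_cast Real.pi_ne_zero
  have key : ∀ (s : ℚ) (r : ℝ), r ≠ 0 → IsAlgebraic ℚ r →
      IsAlgebraic ℚ (Real.pi ^ (s : ℝ) + Real.exp r) → ∃ g h : ℂ,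
      Q123.US.Sol (fun _ : Fin 1 => log (Real.pi : ℂ)) g h (fun _ => s, 0)
        (fun _ => 0, (r : ℂ)) := by
    intro s r hr har hsr
    set N : ℝ := Real.pi ^ (s : ℝ) + Real.exp r with hN
    have hNpos : 0 < N := by
      have h1 : 0 < Real.pi ^ (s : ℝ) := Real.rpow_pos_of_pos Real.pi_pos _
      have h2 := Real.exp_pos r
      linarith
    have hN0 : (N : ℂ) ≠ 0 := by exact_mod_cast hNpos.ne'
    have hNa : IsAlgebraic ℚ (N : ℂ) := hsr.algebraMap (A := ℂ)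
    have hra : IsAlgebraic ℚ (r : ℂ) := har.algebraMap (A := ℂ)
    have hNc : (N : ℂ) = (Real.pi : ℂ) ^ (s : ℂ) + exp (r : ℂ) := by
      rw [hN]
      push_cast
      rw [ofReal_cpow Real.pi_pos.le]
      simp
    have r1 := rep_monomial hpi (a := (N : ℂ)⁻¹) (r := 0) (s := s) hNa.inv (inv_ne_zero hN0)
      isAlgebraic_zero
    have r2 := rep_monomial hpi (a := (N : ℂ)⁻¹) (r := (r : ℂ)) (s := 0) hNa.inv
      (inv_ne_zero hN0) hra
    have hsum : (N : ℂ)⁻¹ * (Real.pi : ℂ) ^ (s : ℂ) * exp 0 +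
        (N : ℂ)⁻¹ * (Real.pi : ℂ) ^ ((0 : ℚ) : ℂ) * exp (r : ℂ) = 1 := by
      rw [exp_zero, Rat.cast_zero, cpow_zero, mul_one, mul_one, ← mul_add, ← hNc,
        inv_mul_cancel₀ hN0]
    refine ⟨_, _, hsum, ?_, r1, r2⟩
    intro halg
    have h2 : IsAlgebraic ℚ ((N : ℂ)⁻¹ * (Real.pi : ℂ) ^ ((0 : ℚ) : ℂ) * exp (r : ℂ)) := by
      have e1 : (N : ℂ)⁻¹ * (Real.pi : ℂ) ^ ((0 : ℚ) : ℂ) * exp (r : ℂ) =
          1 - (N : ℂ)⁻¹ * (Real.pi : ℂ) ^ (s : ℂ) * exp 0 := by linear_combination hsum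
      rw [e1]
      exact isAlgebraic_one.sub halg
    apply transcendental_exp hra (by exact_mod_cast hr)
    have e2 : exp (r : ℂ) = (N : ℂ) * ((N : ℂ)⁻¹ * (Real.pi : ℂ) ^ ((0 : ℚ) : ℂ) *
        exp (r : ℂ)) := by
      rw [Rat.cast_zero, cpow_zero]
      field_simp
    rw [e2]
    exact hNa.mul h2
  obtain ⟨g, h1, S⟩ := key s r hr har h
  obtain ⟨g', h1', S'⟩ := key s' r' hr' har' h'
  have hO := Q123.US.orbit_one S S'
  rcases Q123.US.exps_of_orbit S S' hO with ⟨-, -, H3, H4⟩ | ⟨-, -, H3, H4⟩ | ⟨H3, H4⟩ |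
    ⟨H3, H4⟩ | ⟨H3, H4⟩ | ⟨H3, H4⟩
  · have e1 : s' = s := congrFun (congrArg Prod.fst H3) 0
    have e2 : (r' : ℂ) = r := congrArg Prod.snd H4
    exact ⟨e1, by exact_mod_cast e2⟩
  · have e1 : s' = 0 := congrFun (congrArg Prod.fst H3) 0
    exact absurd e1 hs'
  · have e1 : (0 : ℚ) = 0 - s := congrFun (congrArg Prod.fst H4) 0
    exact absurd (by linarith) hs
  · have e1 : (0 : ℚ) = -s := congrFun (congrArg Prod.fst H4) 0
    exact absurd (by linarith) hs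
  · have e1 : s' = -0 := congrFun (congrArg Prod.fst H3) 0
    exact absurd (by simpa using e1) hs'
  · have e1 : (0 : ℂ) = 0 - (r : ℂ) := congrArg Prod.snd H3
    have e2 : (r : ℂ) = 0 := by linear_combination e1
    exact absurd (by exact_mod_cast e2) hr

theorem solutions_eq_six {x : ℂ} (hx : x ≠ 0) {p : ℂ × ℂ} (hp : p ∈ Solutions x) :
    Solutions x = Six p.1 p.2 ∧ (Solutions x).encard = 6 := by
  rw [Solutions_eq hx] at hp ⊢
  obtain ⟨u, v, S⟩ := Q123.US.mem_Sols.mp hp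
  refine ⟨?_, Q123.US.encard_one S⟩
  ext ⟨g1, h1⟩
  rw [six_iff]
  constructor
  · intro h
    obtain ⟨u1, v1, S1⟩ := Q123.US.mem_Sols.mp h
    exact Q123.US.orbit_one S S1
  · intro h
    apply Q123.US.mem_Sols.mpr
    rcases h with ⟨h1, h2⟩ | ⟨h1, h2⟩ | ⟨h1, h2⟩ | ⟨h1, h2⟩ | ⟨h1, h2⟩ | ⟨h1, h2⟩
    · exact ⟨_, _, h1 ▸ h2 ▸ S⟩
    · exact ⟨_, _, h1 ▸ h2 ▸ S.swap⟩
    · exact ⟨_, _, h1 ▸ h2 ▸ S.inv⟩
    · exact ⟨_, _, h1 ▸ h2 ▸ S.inv.swap⟩
    · exact ⟨_, _, h1 ▸ h2 ▸ S.swap.inv⟩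
    · exact ⟨_, _, h1 ▸ h2 ▸ S.swap.inv.swap⟩

theorem transcendental_e : Transcendental ℚ (exp (1 : ℂ)) :=
  transcendental_exp isAlgebraic_one one_ne_zero

/-- **Six is attained.** -/
theorem six_attained : (1 - exp (1 : ℂ)) ≠ 0 ∧ (Solutions (1 - exp 1)).encard = 6 := by
  have h0 : (1 - exp (1 : ℂ)) ≠ 0 := by
    intro h
    apply transcendental_e
    have : exp (1 : ℂ) = 1 := by linear_combination -h
    rw [this]
    exact isAlgebraic_one
  refine ⟨h0, ?_⟩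
  have hmem : (exp (1 : ℂ), 1 - exp (1 : ℂ)) ∈ Solutions (1 - exp 1) := by
    refine ⟨⟨1, 1, 0, isAlgebraic_one, one_ne_zero, isAlgebraic_one, ?_⟩,
      ⟨1, 0, 1, isAlgebraic_one, one_ne_zero, isAlgebraic_zero, ?_⟩, ?_, transcendental_e⟩
    · simp
    · simp
    · ring
  exact (solutions_eq_six h0 hmem).2

/-- **Monomials.** -/
theorem monomials {x : ℂ} (hx : x ≠ 0) (hS : (Solutions x).Nonempty) (s : ℚ) (r : ℂ)
    (hr : IsAlgebraic ℚ r) (h0 : s ≠ 0 ∨ r ≠ 0) : Transcendental ℚ (x ^ (s : ℂ) * exp r) := by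
  intro halg
  obtain ⟨p, hp⟩ := hS
  rw [Solutions_eq hx] at hp
  obtain ⟨u, v, S⟩ := Q123.US.mem_Sols.mp hp
  have h1 : exp (Q123.US.ell (fun _ : Fin 1 => log x) (fun _ => s, r)) = x ^ (s : ℂ) * exp r := by
    rw [Q123.US.ell_apply, cpow_def_of_ne_zero hx, ← exp_add]
    simp [mul_comm]
  have h2 := Q123.US.mono_zero S (w := (fun _ => s, r)) hr (by rw [h1]; exact halg)
  rcases h0 with h0 | h0
  · exact h0 (congrFun (congrArg Prod.fst h2) 0)
  · exact h0 (congrArg Prod.snd h2)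

/-- **Reality.** -/
theorem reality {x : ℝ} (hx : 0 < x) {a b r r' : ℂ} {s s' : ℚ} (ha : IsAlgebraic ℚ a)
    (ha0 : a ≠ 0) (hb : IsAlgebraic ℚ b) (hb0 : b ≠ 0) (hr : IsAlgebraic ℚ r)
    (hr' : IsAlgebraic ℚ r')
    (hsum : a * (x : ℂ) ^ (s : ℂ) * exp r + b * (x : ℂ) ^ (s' : ℂ) * exp r' = 1)
    (htr : Transcendental ℚ (a * (x : ℂ) ^ (s : ℂ) * exp r)) :
    (r.im = 0 ∧ r'.im = 0) ∨ (s = s' ∧ r' = (starRingEnd ℂ) r) ∨
      (s = 0 ∧ r = r' - (starRingEnd ℂ) r') ∨ (s' = 0 ∧ r' = r - (starRingEnd ℂ) r) := by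
  have hx' : (x : ℂ) ≠ 0 := by exact_mod_cast hx.ne'
  have S : Q123.US.Sol (fun _ : Fin 1 => log (x : ℂ)) (a * (x : ℂ) ^ (s : ℂ) * exp r)
      (b * (x : ℂ) ^ (s' : ℂ) * exp r') (fun _ => s, r) (fun _ => s', r') :=
    ⟨hsum, htr, rep_monomial hx' ha ha0 hr, rep_monomial hx' hb hb0 hr'⟩
  have hl : ∀ j : Fin 1, (starRingEnd ℂ) ((fun _ : Fin 1 => log (x : ℂ)) j) =
      (fun _ : Fin 1 => log (x : ℂ)) j := by
    intro j
    change (starRingEnd ℂ) (log (x : ℂ)) = log (x : ℂ)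
    rw [← ofReal_log hx.le, conj_ofReal]
  rcases Q123.US.real_cases hl S with ⟨h1, h2⟩ | ⟨h1, h2⟩ | ⟨h1, h2⟩ | ⟨h1, h2⟩
  · left
    exact ⟨conj_eq_iff_im.mp h1, conj_eq_iff_im.mp h2⟩
  · right; left
    exact ⟨congrFun h1 0, h2⟩
  · right; right; left
    exact ⟨congrFun h1 0, h2⟩
  · right; right; right
    exact ⟨congrFun h1 0, h2⟩

/-- **Several numbers.** -/
theorem several {m κ p : ℕ} (lam : Fin m → ℂ) (w : Fin κ → (Fin m → ℚ) × ℂ) (g h : Fin p → ℂ)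
    (u v : Fin p → (Fin m → ℚ) × ℂ)
    (hw : ∀ i, IsAlgebraic ℚ (w i).2 ∧ IsAlgebraic ℚ (exp (logOf lam (w i))))
    (hs : ∀ j, IsSolution lam (g j) (h j) (u j) (v j))
    (hind : LinearIndependent ℚ (Sum.elim w (Sum.elim u v))) :
    κ + p ≤ m ∧ (κ + p = m →
      {q : ℂ × ℂ | ∃ u' v', IsSolution lam q.1 q.2 u' v'} = ⋃ j, Six (g j) (h j) ∧
      {q : ℂ × ℂ | ∃ u' v', IsSolution lam q.1 q.2 u' v'}.encard = 6 * p) := by
  have H : Q123.US.Fam lam w g h u v :=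
    ⟨fun i => ⟨(hw i).1, by rw [Q123.US.ell_apply]; exact (hw i).2⟩,
      fun j => (isSolution_iff _ _ _ _ _).mp (hs j), hind⟩
  have hset : {q : ℂ × ℂ | ∃ u' v', IsSolution lam q.1 q.2 u' v'} = Q123.US.Sols lam := by
    ext q
    rw [Set.mem_ofPred_eq, Q123.US.mem_Sols]
    simp only [isSolution_iff]
  refine ⟨by simpa using Q123.US.card_le H, fun hm => ?_⟩
  rw [hset]
  refine ⟨?_, by simpa using Q123.US.encard_Sols H (by simpa using hm)⟩
  ext ⟨g1, h1⟩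
  rw [Set.mem_iUnion]
  constructor
  · intro hq
    obtain ⟨u1, v1, S1⟩ := Q123.US.mem_Sols.mp hq
    obtain ⟨j, hj⟩ := Q123.US.mem_orbit H (by simpa using hm) S1
    exact ⟨j, six_iff.mpr hj⟩
  · rintro ⟨j, hj⟩
    have S := H.sol j
    rw [six_iff] at hj
    apply Q123.US.mem_Sols.mpr
    rcases hj with ⟨h1, h2⟩ | ⟨h1, h2⟩ | ⟨h1, h2⟩ | ⟨h1, h2⟩ | ⟨h1, h2⟩ | ⟨h1, h2⟩
    · exact ⟨_, _, h1 ▸ h2 ▸ S⟩
    · exact ⟨_, _, h1 ▸ h2 ▸ S.swap⟩
    · exact ⟨_, _, h1 ▸ h2 ▸ S.inv⟩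
    · exact ⟨_, _, h1 ▸ h2 ▸ S.inv.swap⟩
    · exact ⟨_, _, h1 ▸ h2 ▸ S.swap.inv⟩
    · exact ⟨_, _, h1 ▸ h2 ▸ S.swap.inv.swap⟩

/-- **Main result.** -/
theorem result :
    -- (1) at most six solutions; all of them from one; six are attained
    (∀ x : ℂ, x ≠ 0 → (Solutions x).encard ≤ 6 ∧
      ∀ q ∈ Solutions x, Solutions x = Six q.1 q.2 ∧ (Solutions x).encard = 6) ∧
    ((1 - exp (1 : ℂ)) ≠ 0 ∧ (Solutions (1 - exp 1)).encard = 6) ∧
    -- (2) if there is a solution, no monomial is algebraic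
    (∀ x : ℂ, x ≠ 0 → (Solutions x).Nonempty → ∀ (s : ℚ) (r : ℂ), IsAlgebraic ℚ r →
      (s ≠ 0 ∨ r ≠ 0) → Transcendental ℚ (x ^ (s : ℂ) * exp r)) ∧
    -- (3) the exponents are real up to three shapes
    (∀ x : ℝ, 0 < x → ∀ (a b r r' : ℂ) (s s' : ℚ), IsAlgebraic ℚ a → a ≠ 0 → IsAlgebraic ℚ b →
      b ≠ 0 → IsAlgebraic ℚ r → IsAlgebraic ℚ r' →
      a * (x : ℂ) ^ (s : ℂ) * exp r + b * (x : ℂ) ^ (s' : ℂ) * exp r' = 1 →
      Transcendental ℚ (a * (x : ℂ) ^ (s : ℂ) * exp r) →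
      (r.im = 0 ∧ r'.im = 0) ∨ (s = s' ∧ r' = (starRingEnd ℂ) r) ∨
        (s = 0 ∧ r = r' - (starRingEnd ℂ) r') ∨ (s' = 0 ∧ r' = r - (starRingEnd ℂ) r)) ∧
    -- (4) nonnegative integer exponents
    (∀ x : ℂ, x ≠ 0 → ∀ (a b N a' b' N' : ℂ) (i j k l i' j' k' l' : ℕ),
      IsAlgebraic ℚ a → a ≠ 0 → IsAlgebraic ℚ b → b ≠ 0 → i * l ≠ j * k →
      a * x ^ i * exp 1 ^ j + b * x ^ k * exp 1 ^ l = N → N ≠ 0 → IsAlgebraic ℚ N →
      IsAlgebraic ℚ a' → a' ≠ 0 → IsAlgebraic ℚ b' → b' ≠ 0 → i' * l' ≠ j' * k' →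
      a' * x ^ i' * exp 1 ^ j' + b' * x ^ k' * exp 1 ^ l' = N' → N' ≠ 0 → IsAlgebraic ℚ N' →
      (i' = i ∧ j' = j ∧ k' = k ∧ l' = l ∧ a' * N = a * N' ∧ b' * N = b * N') ∨
      (i' = k ∧ j' = l ∧ k' = i ∧ l' = j ∧ a' * N = b * N' ∧ b' * N = a * N')) ∧
    (∀ (s s' : ℚ) (r r' : ℝ), s ≠ 0 → s' ≠ 0 → r ≠ 0 → r' ≠ 0 → IsAlgebraic ℚ r →
      IsAlgebraic ℚ r' → IsAlgebraic ℚ (Real.pi ^ (s : ℝ) + Real.exp r) →
      IsAlgebraic ℚ (Real.pi ^ (s' : ℝ) + Real.exp r') → s' = s ∧ r' = r) ∧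
    -- (5) several numbers
    (∀ (m κ p : ℕ) (lam : Fin m → ℂ) (w : Fin κ → (Fin m → ℚ) × ℂ) (g h : Fin p → ℂ)
      (u v : Fin p → (Fin m → ℚ) × ℂ),
      (∀ i, IsAlgebraic ℚ (w i).2 ∧ IsAlgebraic ℚ (exp (logOf lam (w i)))) →
      (∀ j, IsSolution lam (g j) (h j) (u j) (v j)) →
      LinearIndependent ℚ (Sum.elim w (Sum.elim u v)) →
      κ + p ≤ m ∧ (κ + p = m →
        {q : ℂ × ℂ | ∃ u' v', IsSolution lam q.1 q.2 u' v'} = ⋃ j, Six (g j) (h j) ∧
        {q : ℂ × ℂ | ∃ u' v', IsSolution lam q.1 q.2 u' v'}.encard = 6 * p)) := by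
  refine ⟨fun x hx => ⟨?_, fun q hq => solutions_eq_six hx hq⟩, six_attained,
    fun x hx hS s r hr h0 => monomials hx hS s r hr h0,
    fun x hx a b r r' s s' ha ha0 hb hb0 hr hr' hsum htr =>
      reality hx ha ha0 hb hb0 hr hr' hsum htr,
    fun x hx a b N a' b' N' i j k l i' j' k' l' h1 h2 h3 h4 h5 h6 h7 h8 h9 h10 h11 h12 h13 h14
      h15 h16 => nat_exponents hx h1 h2 h3 h4 h5 h6 h7 h8 h9 h10 h11 h12 h13 h14 h15 h16,
    fun s s' r r' hs hs' hr hr' har har' h h' => pi_exp hs hs' hr hr' har har' h h',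
    fun m κ p lam w g h u v hw hs hind => several lam w g h u v hw hs hind⟩
  rcases Set.eq_empty_or_nonempty (Solutions x) with h | ⟨q, hq⟩
  · rw [h, Set.encard_empty]
    exact zero_le
  · rw [(solutions_eq_six hx hq).2]

end Pool.Agent.Results.MP_363d4d_nt.SixSolutions
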